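import Pool.Agent.Helper84.FX.StX

set_option autoImplicit false

/-!
# Module YT (project FX, MP_3bffab_ag): `Y` over `t ≠ 0`
-/

namespace Pool.Agent.Helper66.FX

open Pool.Agent.Helper84.FX Pool.Agent.Helper72.FX Set

private lemma slit_or (t : ℂ) (ht : t ≠ 0) : t ∈ Complex.slitPlane ∨ -t ∈ Complex.slitPlane := by
  rw [Complex.mem_slitPlane_iff, Complex.mem_slitPlane_iff]
  by_cases him : t.im = 0
  · have hre : t.re ≠ 0 := by
      intro h
      exact ht (Complex.ext h him)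
    rcases lt_or_gt_of_ne hre with h | h
    · right; left
      simpa using h
    · left; left; exact h
  · left; right; exact him

private lemma slit_ne {t : ℂ} (h : t ∈ Complex.slitPlane) : t ≠ 0 := by
  rintro rfl
  simp at h

private lemma slit_ne' {t : ℂ} (h : -t ∈ Complex.slitPlane) : t ≠ 0 := by
  rintro rfl
  simp at h

private lemma tY_cont : Continuous tY := continuous_apply _

theorem hYT : StGLU → StT6Y → StADM → StYT := by
  intro hG hT hA
  obtain ⟨hA1, hA2, hA3⟩ := hA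
  have hU2 : IsOpen {t : ℂ | -t ∈ Complex.slitPlane} :=
    Complex.isOpen_slitPlane.preimage continuous_neg
  have key : ∀ S : Set ℂ, (∀ t ∈ S, t ≠ 0) → Adm S →
      WE ({y | y ∈ YY FP ∧ tY y ≠ 0} ∩ {y | tY y ∈ S}) ({t : ℂ | t ≠ 0} ∩ S) tY := by
    intro S hS hAd
    have h1 : ({y | y ∈ YY FP ∧ tY y ≠ 0} ∩ {y | tY y ∈ S}) = YU S := by
      ext y
      constructor
      · rintro ⟨⟨hy, _⟩, hy2⟩
        exact ⟨hy, hy2⟩
      · rintro ⟨hy, hy2⟩
        exact ⟨⟨hy, hS _ hy2⟩, hy2⟩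
    have h2 : ({t : ℂ | t ≠ 0} ∩ S) = S := by
      ext t
      constructor
      · rintro ⟨_, h⟩
        exact h
      · intro h
        exact ⟨hS t h, h⟩
    rw [h1, h2]
    exact hT S hAd
  refine hG _ _ {y | y ∈ YY FP ∧ tY y ≠ 0} {t : ℂ | t ≠ 0} tY
    {y | tY y ∈ Complex.slitPlane} {y | tY y ∈ {t : ℂ | -t ∈ Complex.slitPlane}}
    Complex.slitPlane {t : ℂ | -t ∈ Complex.slitPlane}
    (Complex.isOpen_slitPlane.preimage tY_cont) (hU2.preimage tY_cont)
    Complex.isOpen_slitPlane hU2 ?_ ?_ ?_ ?_ ?_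
  · rintro y ⟨_, hy⟩
    exact slit_or _ hy
  · intro t ht
    exact slit_or _ ht
  · exact key _ (fun t h => slit_ne h) hA1
  · exact key _ (fun t h => slit_ne' h) hA2
  · exact key _ (fun t h => slit_ne h.1) hA3

end Pool.Agent.Helper66.FX
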